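import Pool.Agent.Helper7.SC.Frames

set_option autoImplicit false

/-!
# Sensitive choice: assembly
-/

namespace Pool.Agent.Helper37.SC

open Finset
open Pool.Agent.Helper7.SC

/-- (C) the bridge from guessed digits to the noise operator -/
def StC : Prop := ∀ (b : ℕ), 2 ≤ b → ∀ (ε δ : ℝ), 0 < ε → 0 < δ →
  ∃ (H : ℕ) (ε₀ c₁ : ℝ), 1 ≤ H ∧ 0 < ε₀ ∧ 0 < c₁ ∧ c₁ ≤ 1 / 2 ∧ ∀ q : ℕ, 1 ≤ q → ∃ K₀ : ℕ,
    ∀ K ≥ K₀, ∀ s : ℝ, 1 ≤ s → ∀ (D : Finset ℕ) (f : ℕ → ℕ) (J : ℕ → ℕ → ℕ),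
      D ⊆ range (b ^ K) → δ * (b : ℝ) ^ K ≤ #D →
      (∑ i ∈ range K, ∑ j ∈ range K,
        (#{n ∈ range (b ^ K) | J i n ≠ J i ((n + b ^ j) % b ^ K)} : ℝ)) ≤ s * K * (b : ℝ) ^ K →
      (1 / b + ε) * K * #D ≤ ∑ n ∈ D, (#{i ∈ range K | f n / b ^ i % b = J i n} : ℝ) →
      ∃ r m : ℕ, r < q ∧ 0 < m ∧ r + m * q ≤ K ∧ K < r + (m + 1) * q ∧
        ε₀ * (m * (b : ℝ) ^ K) ≤ ∑ n ∈ D, ∑ n' ∈ D,
          law b q r m K (c₁ / s) ((n' : ZMod (b ^ K)) - n) *
            ∑ B : Fin m, ka H (((f n : ℝ) - f n') / (b : ℝ) ^ (r + (B + 1) * q))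

/-- the number of representations with both summands in `S` -/
def repS (S : Finset ℕ) (n : ℕ) : ℕ := #{a ∈ S ×ˢ S | a.1 + a.2 = n}

/-- finite form -/
theorem finite_form (hA1 : StA1) (hA2 : StA2) (hA3 : StA3) (hA4 : StA4) (hD : StD) (hC : StC)
    (b : ℕ) (hb : 2 ≤ b) (ε δ : ℝ) (hε : 0 < ε) (hδ : 0 < δ) :
    ∃ c : ℝ, 0 < c ∧ ∀ (K : ℕ) (s : ℝ), 1 ≤ s → ∀ (S D : Finset ℕ) (f : ℕ → ℕ) (J : ℕ → ℕ → ℕ),
      S ⊆ range (b ^ K) → D ⊆ range (b ^ K) → (∀ n ∈ D, f n ≤ n ∧ f n ∈ S ∧ n - f n ∈ S) →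
      δ * (b : ℝ) ^ K ≤ #D →
      (∑ i ∈ range K, ∑ j ∈ range K,
        (#{n ∈ range (b ^ K) | J i n ≠ J i ((n + b ^ j) % b ^ K)} : ℝ)) ≤ s * K * (b : ℝ) ^ K →
      (1 / b + ε) * K * #D ≤ ∑ n ∈ D, (#{i ∈ range K | f n / b ^ i % b = J i n} : ℝ) →
      c * (b : ℝ) ^ K * Real.exp (c * K / s) ≤ ∑ n ∈ range (2 * b ^ K), (repS S n : ℝ) ^ 2 := by
  obtain ⟨H, ε₀, c₁, hH, hε₀, hc₁, hc₁2, hC⟩ := hC b hb ε δ hε hδ
  set η : ℝ := min 1 (ε₀ / 16) with hη
  have hη0 : 0 < η := lt_min one_pos (by positivity)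
  have hη1 : η ≤ 1 := min_le_left _ _
  have hη2 : η ≤ ε₀ / 16 := min_le_right _ _
  -- the length of the blocks
  obtain ⟨q₁, hq₁⟩ := exists_nat_ge (8 * Real.pi * H / (η * Real.log 2))
  set q : ℕ := q₁ + 2 * H + 1 with hq
  have hq1 : 1 ≤ q := by omega
  have hbq : q < b ^ q := Nat.lt_pow_self (by omega)
  have hHq : 2 * H < b ^ q := by omega
  have hq0 : (0 : ℝ) < q := by
    have : 0 < q := by omega
    exact_mod_cast this
  have hlog2 : 0 < Real.log 2 := Real.log_pos (by norm_num)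
  have hexp : Real.exp (8 * Real.pi * H / ((b : ℝ) ^ q * η)) ≤ 2 := by
    have h1 : 8 * Real.pi * H / ((b : ℝ) ^ q * η) ≤ Real.log 2 := by
      have h2 : (q₁ : ℝ) ≤ (b : ℝ) ^ q := by
        have : q₁ ≤ b ^ q := by omega
        exact_mod_cast this
      have h3 : 0 < (b : ℝ) ^ q := by
        have : 0 < b ^ q := by omega
        exact_mod_cast this
      rw [div_le_iff₀ (by positivity)]
      rw [div_le_iff₀ (by positivity)] at hq₁
      calc 8 * Real.pi * H ≤ q₁ * (η * Real.log 2) := hq₁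
        _ ≤ (b : ℝ) ^ q * (η * Real.log 2) := mul_le_mul_of_nonneg_right h2 (by positivity)
        _ = _ := by ring
    calc Real.exp (8 * Real.pi * H / ((b : ℝ) ^ q * η)) ≤ Real.exp (Real.log 2) :=
          Real.exp_le_exp.2 h1
      _ = 2 := Real.exp_log (by norm_num)
  obtain ⟨K₀, hC⟩ := hC q hq1
  set K₁ : ℕ := max K₀ (4 * q) with hK₁
  set c₂ : ℝ := η * c₁ * ε₀ / (32 * q) with hc₂
  have hc₂0 : 0 < c₂ := by positivity
  set c : ℝ := min (min c₂ (ε₀ / 2)) (min 1 (δ * Real.exp (-K₁))) with hc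
  have hc0 : 0 < c := by
    refine lt_min (lt_min hc₂0 (by positivity)) (lt_min one_pos (by positivity))
  have hcc₂ : c ≤ c₂ := (min_le_left _ _).trans (min_le_left _ _)
  have hcε₀ : c ≤ ε₀ / 2 := (min_le_left _ _).trans (min_le_right _ _)
  have hc1 : c ≤ 1 := (min_le_right _ _).trans (min_le_left _ _)
  have hcδ : c ≤ δ * Real.exp (-K₁) := (min_le_right _ _).trans (min_le_right _ _)
  refine ⟨c, hc0, fun K s hs S D f J hS hDr hf hDc hsens hhit => ?_⟩
  set T : ℝ := ∑ n ∈ range (2 * b ^ K), (repS S n : ℝ) ^ 2 with hT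
  have hs0 : 0 < s := by linarith
  have hbK : (0 : ℝ) < (b : ℝ) ^ K := by
    have : 0 < b ^ K := by positivity
    exact_mod_cast this
  have hK0 : (0 : ℝ) ≤ K := Nat.cast_nonneg _
  rcases lt_or_ge K K₁ with hK | hK
  · -- small `K`
    have h1 : (#D : ℝ) ≤ T := by
      have h2 : ∑ n ∈ D, (1 : ℝ) ≤ ∑ n ∈ D, (repS S n : ℝ) ^ 2 := by
        refine sum_le_sum fun n hn => ?_
        obtain ⟨h3, h4, h5⟩ := hf n hn
        have h6 : 1 ≤ repS S n := by
          unfold repS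
          rw [Nat.one_le_iff_ne_zero, ← Nat.pos_iff_ne_zero, card_pos]
          refine ⟨(f n, n - f n), ?_⟩
          rw [mem_filter, mem_product]
          exact ⟨⟨h4, h5⟩, by show f n + (n - f n) = n; omega⟩
        have h7 : (1 : ℝ) ≤ repS S n := by exact_mod_cast h6
        nlinarith
      rw [sum_const, nsmul_eq_mul, mul_one] at h2
      refine h2.trans (sum_le_sum_of_subset_of_nonneg (fun n hn => ?_) fun _ _ _ => sq_nonneg _)
      have := mem_range.1 (hDr hn)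
      rw [mem_range]
      omega
    have h2 : Real.exp (c * K / s) ≤ Real.exp K₁ := by
      refine Real.exp_le_exp.2 ?_
      rw [div_le_iff₀ hs0]
      have h3 : (K : ℝ) ≤ K₁ := by exact_mod_cast hK.le
      have h4 : c * K ≤ 1 * K := mul_le_mul_of_nonneg_right hc1 hK0
      have h5 : (K₁ : ℝ) * 1 ≤ K₁ * s := mul_le_mul_of_nonneg_left hs (Nat.cast_nonneg _)
      linarith
    have h3 : c * Real.exp (c * K / s) ≤ δ := by
      calc c * Real.exp (c * K / s) ≤ (δ * Real.exp (-K₁)) * Real.exp K₁ :=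
            mul_le_mul hcδ h2 (Real.exp_pos _).le (by positivity)
        _ = δ := by
            rw [mul_assoc, ← Real.exp_add, neg_add_cancel, Real.exp_zero, mul_one]
    calc c * (b : ℝ) ^ K * Real.exp (c * K / s) = c * Real.exp (c * K / s) * (b : ℝ) ^ K := by ring
      _ ≤ δ * (b : ℝ) ^ K := mul_le_mul_of_nonneg_right h3 hbK.le
      _ ≤ #D := hDc
      _ ≤ T := h1
  · have hKK₀ : K₀ ≤ K := (le_max_left _ _).trans hK
    have hK4 : 4 * q ≤ K := (le_max_right _ _).trans hK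
    obtain ⟨r, m, hr, hm, hrm, hKm, hmain⟩ := hC K hKK₀ s hs D f J hDr hDc hsens hhit
    set p : ℝ := c₁ / s with hp
    have hp0 : 0 < p := by positivity
    have hp2 : p ≤ 1 / 2 := by
      rw [hp, div_le_iff₀ hs0]
      linarith
    set Δ : ℝ := η * p / 8 with hΔ
    have hΔ0 : 0 < Δ := by positivity
    have hηΔ : η = 8 * Δ / p := by
      rw [hΔ]
      field_simp
    have hΔη : Δ ≤ η / 16 := by
      rw [hΔ]
      have := mul_le_mul_of_nonneg_left hp2 hη0.le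
      linarith
    have hΔ2 : Δ ≤ 1 / 2 := by linarith
    have h1 := hD b q r m K H p Δ ε₀ hb hH hm hrm hΔ0 hΔ2 hp0.le (by linarith) hε₀ S D f hS hDr hf
      hmain
    have h2 := hA2 b q r m K H p Δ hb hrm hH S
    have h3 := hA1 b q r m K H p Δ η hb hrm hH hHq hΔ0 hp0 hp2 hηΔ hη1 hexp S
    have h4 := hA3 (b ^ K) (by positivity) S
    have h5 := hA4 (b ^ K) S hS
    have h6 : X b q r m K H p Δ S ≤ Real.exp (4 * Δ * η * m) * Ecyc (b ^ K) S := by
      have h7 : (b : ℝ) ^ K * X b q r m K H p Δ S ≤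
          (b : ℝ) ^ K * ((1 + 4 * Δ * η) ^ m * Ecyc (b ^ K) S) := by
        rw [h2]
        refine h3.trans (le_of_eq ?_)
        rw [← h4]
        push_cast
        ring
      have h8 : X b q r m K H p Δ S ≤ (1 + 4 * Δ * η) ^ m * Ecyc (b ^ K) S :=
        le_of_mul_le_mul_left h7 hbK
      refine h8.trans (mul_le_mul_of_nonneg_right ?_ ?_)
      · have h9 : 1 + 4 * Δ * η ≤ Real.exp (4 * Δ * η) := by
          have := Real.add_one_le_exp (4 * Δ * η)
          linarith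
        calc (1 + 4 * Δ * η) ^ m ≤ Real.exp (4 * Δ * η) ^ m :=
              pow_le_pow_left₀ (by positivity) h9 m
          _ = Real.exp (4 * Δ * η * m) := by
              rw [← Real.exp_nat_mul]
              congr 1
              ring
      · unfold Ecyc
        refine sum_nonneg fun _ _ => sum_nonneg fun _ _ => sum_nonneg fun _ _ =>
          sum_nonneg fun _ _ => ?_
        split_ifs
        · exact zero_le_one
        · exact le_rfl
    have h7 : Ecyc (b ^ K) S ≤ 2 * T := h5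
    have hE := Real.exp_pos (4 * Δ * η * m)
    have h8 : ε₀ * (b : ℝ) ^ K * Real.exp ((Δ * ε₀ - Δ ^ 2) * m) ≤
        Real.exp (4 * Δ * η * m) * (2 * T) :=
      h1.trans (h6.trans (mul_le_mul_of_nonneg_left h7 hE.le))
    have h9 : ε₀ * (b : ℝ) ^ K * Real.exp ((Δ * ε₀ - Δ ^ 2 - 4 * Δ * η) * m) ≤ 2 * T := by
      have h10 : Real.exp ((Δ * ε₀ - Δ ^ 2) * m) =
          Real.exp ((Δ * ε₀ - Δ ^ 2 - 4 * Δ * η) * m) * Real.exp (4 * Δ * η * m) := by
        rw [← Real.exp_add]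
        congr 1
        ring
      rw [h10] at h8
      refine le_of_mul_le_mul_left ?_ hE
      calc Real.exp (4 * Δ * η * m) *
            (ε₀ * (b : ℝ) ^ K * Real.exp ((Δ * ε₀ - Δ ^ 2 - 4 * Δ * η) * m)) =
            ε₀ * (b : ℝ) ^ K * (Real.exp ((Δ * ε₀ - Δ ^ 2 - 4 * Δ * η) * m) *
              Real.exp (4 * Δ * η * m)) := by ring
        _ ≤ _ := h8
    -- the exponent
    have hm0 : (0 : ℝ) < m := by exact_mod_cast hm
    have h10 : c * K / s ≤ (Δ * ε₀ - Δ ^ 2 - 4 * Δ * η) * m := by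
      have h11 : Δ * ε₀ / 2 ≤ Δ * ε₀ - Δ ^ 2 - 4 * Δ * η := by
        have h12 : Δ ^ 2 ≤ Δ * (ε₀ / 256) := by
          rw [sq]
          refine mul_le_mul_of_nonneg_left ?_ hΔ0.le
          linarith
        have h13 : 4 * Δ * η ≤ Δ * (ε₀ / 4) := by
          have := mul_le_mul_of_nonneg_left hη2 (by positivity : 0 ≤ 4 * Δ)
          linarith
        have h14 : 0 < Δ * ε₀ := by positivity
        linarith
      have h12 : (K : ℝ) / (2 * q) ≤ m := by
        rw [div_le_iff₀ (by positivity)]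
        have h13 : K < q + (m + 1) * q := by omega
        have h14 : (K : ℝ) < q + (m + 1) * q := by exact_mod_cast h13
        have h15 : 4 * (q : ℝ) ≤ K := by exact_mod_cast hK4
        nlinarith
      calc c * K / s ≤ c₂ * K / s := by
            refine div_le_div_of_nonneg_right ?_ hs0.le
            exact mul_le_mul_of_nonneg_right hcc₂ hK0
        _ = Δ * ε₀ / 2 * (K / (2 * q)) := by
            rw [hc₂, hΔ, hp]
            field_simp
            ring
        _ ≤ Δ * ε₀ / 2 * m := mul_le_mul_of_nonneg_left h12 (by positivity)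
        _ ≤ _ := mul_le_mul_of_nonneg_right h11 hm0.le
    have h11 : c * (b : ℝ) ^ K * Real.exp (c * K / s) ≤
        ε₀ / 2 * (b : ℝ) ^ K * Real.exp ((Δ * ε₀ - Δ ^ 2 - 4 * Δ * η) * m) :=
      mul_le_mul (mul_le_mul_of_nonneg_right hcε₀ hbK.le) (Real.exp_le_exp.2 h10)
        (Real.exp_pos _).le (by positivity)
    linarith

end Pool.Agent.Helper37.SC
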