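import Pool.Agent.Helper7.SC.Defs

set_option autoImplicit false

/-!
# The Fejer kernel: sums over shifts, Lipschitz bounds, the pointwise inequality
-/

namespace Pool.Agent.Helper37.SC

open Finset
open Pool.Agent.Helper7.SC (e w v ga Kz)

theorem e_add (s t : ℝ) : e (s + t) = e s * e t := by
  unfold e
  rw [← Complex.exp_add]
  congr 1
  push_cast
  ring

theorem norm_e (t : ℝ) : ‖e t‖ = 1 := by
  unfold e
  have h : 2 * (Real.pi : ℂ) * t * Complex.I = ((2 * Real.pi * t : ℝ) : ℂ) * Complex.I := by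
    push_cast
    ring
  rw [h, Complex.norm_exp_ofReal_mul_I]

theorem e_int (k : ℤ) : e k = 1 := by
  unfold e
  rw [Complex.exp_eq_one_iff]
  exact ⟨k, by push_cast; ring⟩

theorem e_eq_one {t : ℝ} (h : e t = 1) : ∃ k : ℤ, t = k := by
  unfold e at h
  rw [Complex.exp_eq_one_iff] at h
  obtain ⟨k, hk⟩ := h
  refine ⟨k, ?_⟩
  have h1 : (2 * (Real.pi : ℂ) * Complex.I) * (t : ℂ) = (2 * (Real.pi : ℂ) * Complex.I) * (k : ℂ) := by
    linear_combination hk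
  have h2 : (t : ℂ) = (k : ℂ) := mul_left_cancel₀ (by
    have := Real.pi_ne_zero
    simp [this]) h1
  exact_mod_cast h2

theorem e_nat_mul (k : ℕ) (t : ℝ) : e (k * t) = e t ^ k := by
  induction k with
  | zero => simp [e]
  | succ k ih =>
    have : ((k + 1 : ℕ) : ℝ) * t = k * t + t := by push_cast; ring
    rw [this, e_add, ih, pow_succ]

theorem conj_e (t : ℝ) : (starRingEnd ℂ) (e t) = e (-t) := by
  unfold e
  have h : ∀ t : ℝ, 2 * (Real.pi : ℂ) * t * Complex.I = ((2 * Real.pi * t : ℝ) : ℂ) * Complex.I :=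
    fun t => by
      push_cast
      ring
  rw [h, h, ← Complex.exp_conj, map_mul, Complex.conj_ofReal, Complex.conj_I]
  congr 1
  push_cast
  ring

/-- orthogonality -/
theorem sum_e (Q : ℕ) (hQ : 0 < Q) {d : ℤ} (hd : |d| < Q) :
    ∑ k ∈ range Q, e (d * (k / Q)) = if d = 0 then (Q : ℂ) else 0 := by
  have hQ0 : (Q : ℝ) ≠ 0 := by exact_mod_cast hQ.ne'
  by_cases h0 : d = 0
  · subst h0
    rw [if_pos rfl]
    have : ∀ k ∈ range Q, e (((0 : ℤ) : ℝ) * ((k : ℝ) / Q)) = 1 := fun k _ => by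
      simp [e]
    rw [sum_congr rfl this]
    simp
  · rw [if_neg h0]
    have h1 : ∀ k ∈ range Q, e ((d : ℝ) * ((k : ℝ) / Q)) = e ((d : ℝ) / Q) ^ k := fun k _ => by
      rw [← e_nat_mul]
      congr 1
      ring
    rw [sum_congr rfl h1]
    have h2 : e ((d : ℝ) / Q) ≠ 1 := by
      intro h
      obtain ⟨k, hk⟩ := e_eq_one h
      rw [div_eq_iff hQ0] at hk
      have hk' : d = k * Q := by exact_mod_cast hk
      have h3 : (Q : ℤ) ∣ d := ⟨k, by rw [hk']; ring⟩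
      exact h0 (Int.eq_zero_of_abs_lt_dvd h3 hd)
    have h3 : e ((d : ℝ) / Q) ^ Q = 1 := by
      rw [← e_nat_mul, mul_div_cancel₀ _ hQ0, e_int]
    rw [geom_sum_eq h2, h3, sub_self, zero_div]

/-- the average of the characters -/
noncomputable def av (Q : ℕ) (y : ℝ) : ℂ := (1 / Q : ℂ) * ∑ τ ∈ range Q, e (τ * y)

theorem w_eq (Q : ℕ) (y : ℝ) : w Q y = ‖av Q y‖ ^ 2 := rfl

theorem w_nonneg (Q : ℕ) (y : ℝ) : 0 ≤ w Q y := by
  rw [w_eq]
  positivity

theorem norm_av_le (Q : ℕ) (y : ℝ) : ‖av Q y‖ ≤ 1 := by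
  unfold av
  rw [norm_mul]
  have h1 : ‖∑ τ ∈ range Q, e (τ * y)‖ ≤ Q := by
    refine (norm_sum_le _ _).trans ?_
    rw [sum_congr rfl fun τ _ => norm_e _]
    simp
  rcases Q.eq_zero_or_pos with h | h
  · subst h
    simp
  · have hQ : (0 : ℝ) < Q := by exact_mod_cast h
    have h2 : ‖(1 / Q : ℂ)‖ = 1 / Q := by
      rw [norm_div, norm_one, Complex.norm_natCast]
    rw [h2, one_div, inv_mul_le_iff₀ hQ, mul_one]
    exact h1

theorem w_le_one (Q : ℕ) (y : ℝ) : w Q y ≤ 1 := by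
  rw [w_eq]
  exact pow_le_one₀ (norm_nonneg _) (norm_av_le Q y)

theorem w_add_int (Q : ℕ) (y : ℝ) (k : ℤ) : w Q (y + k) = w Q y := by
  rw [w_eq, w_eq]
  congr 2
  unfold av
  congr 1
  refine sum_congr rfl fun τ _ => ?_
  have : (τ : ℝ) * (y + k) = τ * y + ((τ * k : ℤ) : ℝ) := by push_cast; ring
  rw [this, e_add, e_int, mul_one]

/-- **the sum over the shifts** -/
theorem w_sum (Q : ℕ) (hQ : 0 < Q) (y : ℝ) : ∑ k ∈ range Q, w Q (y + k / Q) = 1 := by
  have hQ0 : (Q : ℂ) ≠ 0 := by exact_mod_cast hQ.ne'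
  have h1 : ((∑ k ∈ range Q, w Q (y + k / Q) : ℝ) : ℂ) = 1 := by
    rw [Complex.ofReal_sum]
    have h2 : ∀ k ∈ range Q, ((w Q (y + (k : ℝ) / Q) : ℝ) : ℂ) =
        (1 / Q : ℂ) ^ 2 * ∑ τ ∈ range Q, ∑ τ' ∈ range Q,
          e ((τ - τ' : ℝ) * y) * e ((((τ : ℤ) - τ' : ℤ) : ℝ) * (k / Q)) := by
      intro k _
      rw [w_eq, Complex.ofReal_pow, ← Complex.mul_conj']
      unfold av
      rw [map_mul, map_sum, map_div₀, map_one, Complex.conj_natCast]
      have : (1 / Q : ℂ) * (∑ τ ∈ range Q, e (τ * (y + (k : ℝ) / Q))) *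
          (1 / Q * ∑ τ ∈ range Q, (starRingEnd ℂ) (e (τ * (y + (k : ℝ) / Q)))) =
          (1 / Q : ℂ) ^ 2 * ((∑ τ ∈ range Q, e (τ * (y + (k : ℝ) / Q))) *
            ∑ τ ∈ range Q, (starRingEnd ℂ) (e (τ * (y + (k : ℝ) / Q)))) := by ring
      rw [this, sum_mul_sum]
      congr 1
      refine sum_congr rfl fun τ _ => sum_congr rfl fun τ' _ => ?_
      rw [conj_e, ← e_add, ← e_add]
      congr 1
      push_cast
      ring
    rw [sum_congr rfl h2, ← mul_sum, sum_comm]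
    have h3 : ∀ τ ∈ range Q, ∑ k ∈ range Q, ∑ τ' ∈ range Q,
        e ((τ - τ' : ℝ) * y) * e ((((τ : ℤ) - τ' : ℤ) : ℝ) * (k / Q)) = Q := by
      intro τ hτ
      rw [sum_comm]
      have h4 : ∀ τ' ∈ range Q, ∑ k ∈ range Q,
          e ((τ - τ' : ℝ) * y) * e ((((τ : ℤ) - τ' : ℤ) : ℝ) * (k / Q)) =
          if τ = τ' then (Q : ℂ) else 0 := by
        intro τ' hτ'
        rw [← mul_sum, sum_e Q hQ (by
          rw [mem_range] at hτ hτ'
          rw [abs_lt]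
          constructor <;> omega)]
        by_cases h5 : τ = τ'
        · subst h5
          simp [e]
        · rw [if_neg h5, if_neg (by omega), mul_zero]
      rw [sum_congr rfl h4, sum_ite_eq, if_pos hτ]
    rw [sum_congr rfl h3, sum_const, card_range, nsmul_eq_mul]
    field_simp
  exact_mod_cast h1

theorem av_sub (Q : ℕ) (y s : ℝ) : ‖av Q (y + s) - av Q y‖ ≤ Real.pi * Q * |s| := by
  unfold av
  rw [← mul_sub, ← sum_sub_distrib, norm_mul]
  have h1 : ∀ τ ∈ range Q, ‖e (τ * (y + s)) - e (τ * y)‖ ≤ 2 * Real.pi * |s| * τ := by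
    intro τ _
    have h2 : e (τ * (y + s)) - e (τ * y) = e (τ * y) * (e (τ * s) - 1) := by
      have : (τ : ℝ) * (y + s) = τ * y + τ * s := by ring
      rw [this, e_add]
      ring
    rw [h2, norm_mul, norm_e, one_mul]
    have h3 : e (τ * s) = Complex.exp (Complex.I * ((2 * Real.pi * (τ * s) : ℝ) : ℂ)) := by
      unfold e
      congr 1
      push_cast
      ring
    rw [h3]
    refine (Real.norm_exp_I_mul_ofReal_sub_one_le).trans (le_of_eq ?_)
    rw [Real.norm_eq_abs, abs_mul, abs_mul (τ : ℝ) s,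
      abs_of_pos (by positivity : (0 : ℝ) < 2 * Real.pi), Nat.abs_cast]
    ring
  have h4 : ‖∑ τ ∈ range Q, (e (τ * (y + s)) - e (τ * y))‖ ≤ Real.pi * |s| * (Q * Q) := by
    refine (norm_sum_le _ _).trans ((sum_le_sum h1).trans ?_)
    rw [← mul_sum]
    have h5 : (∑ τ ∈ range Q, (τ : ℝ)) * 2 ≤ Q * Q := by
      have h6 := Finset.sum_range_id_mul_two Q
      have h7 : Q * (Q - 1) ≤ Q * Q := Nat.mul_le_mul_left Q (Nat.sub_le Q 1)
      have h8 : (∑ τ ∈ range Q, τ) * 2 ≤ Q * Q := by omega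
      have h9 := (Nat.cast_le (α := ℝ)).2 h8
      push_cast at h9
      exact h9
    have h6 : 0 ≤ Real.pi * |s| := mul_nonneg Real.pi_pos.le (abs_nonneg _)
    calc 2 * Real.pi * |s| * ∑ τ ∈ range Q, (τ : ℝ) = Real.pi * |s| * ((∑ τ ∈ range Q, (τ : ℝ)) * 2) := by
          ring
      _ ≤ _ := mul_le_mul_of_nonneg_left h5 h6
  rcases Q.eq_zero_or_pos with h | h
  · subst h
    simp
  · have hQ : (0 : ℝ) < Q := by exact_mod_cast h
    have h2 : ‖(1 / Q : ℂ)‖ = 1 / Q := by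
      rw [norm_div, norm_one, Complex.norm_natCast]
    rw [h2, one_div, inv_mul_le_iff₀ hQ]
    refine h4.trans (le_of_eq ?_)
    ring

theorem w_lip (Q : ℕ) (y s : ℝ) : |w Q (y + s) - w Q y| ≤ 2 * Real.pi * Q * |s| := by
  rw [w_eq, w_eq]
  have h1 : ‖av Q (y + s)‖ ^ 2 - ‖av Q y‖ ^ 2 =
      (‖av Q (y + s)‖ - ‖av Q y‖) * (‖av Q (y + s)‖ + ‖av Q y‖) := by ring
  rw [h1, abs_mul]
  have h2 : |‖av Q (y + s)‖ - ‖av Q y‖| ≤ Real.pi * Q * |s| :=
    (abs_norm_sub_norm_le _ _).trans (av_sub Q y s)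
  have h3 : |‖av Q (y + s)‖ + ‖av Q y‖| ≤ 2 := by
    rw [abs_of_nonneg (by positivity)]
    have := norm_av_le Q (y + s)
    have := norm_av_le Q y
    linarith
  calc |‖av Q (y + s)‖ - ‖av Q y‖| * |‖av Q (y + s)‖ + ‖av Q y‖| ≤ (Real.pi * Q * |s|) * 2 :=
        mul_le_mul h2 h3 (abs_nonneg _) ((abs_nonneg _).trans h2)
    _ = _ := by ring

section Weights

variable {Q : ℕ} {p η : ℝ}

theorem ga_ge (_ : 0 < η) (h1 : η ≤ 1) (y : ℝ) : η ≤ ga Q η y := by
  unfold ga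
  have := mul_nonneg (sub_nonneg.2 h1) (w_nonneg Q y)
  linarith

theorem ga_pos (h0 : 0 < η) (h1 : η ≤ 1) (y : ℝ) : 0 < ga Q η y :=
  lt_of_lt_of_le h0 (ga_ge h0 h1 y)

theorem v_le_one (hp : 0 ≤ p) (y : ℝ) : v Q p y ≤ 1 := by
  unfold v
  have := mul_nonneg hp (sub_nonneg.2 (w_le_one Q y))
  linarith

theorem v_ge (hp : 0 ≤ p) (y : ℝ) : 1 - p ≤ v Q p y := by
  unfold v
  have h1 : 1 - w Q y ≤ 1 := by
    have := w_nonneg Q y
    linarith
  have := mul_le_mul_of_nonneg_left h1 hp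
  linarith

theorem ga_exp (h0 : 0 < η) (h1 : η ≤ 1) (y s : ℝ) :
    ga Q η (y + s) ≤ ga Q η y * Real.exp (2 * Real.pi * Q * |s| / η) := by
  set L : ℝ := 2 * Real.pi * Q * |s| with hL
  have hL0 : 0 ≤ L := by
    rw [hL]
    have := Real.pi_pos
    positivity
  have h2 := abs_le.1 (w_lip Q y s)
  have h3 : ga Q η (y + s) ≤ ga Q η y + L := by
    unfold ga
    have h4 : (1 - η) * w Q (y + s) ≤ (1 - η) * (w Q y + L) :=
      mul_le_mul_of_nonneg_left (by linarith [h2.2]) (by linarith)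
    have h5 : (1 - η) * L ≤ 1 * L := mul_le_mul_of_nonneg_right (by linarith) hL0
    linarith
  have h4 : L ≤ ga Q η y * (L / η) := by
    have h5 : η * (L / η) = L := mul_div_cancel₀ _ h0.ne'
    calc L = η * (L / η) := h5.symm
      _ ≤ _ := mul_le_mul_of_nonneg_right (ga_ge h0 h1 y) (by positivity)
  have h5 := Real.add_one_le_exp (L / η)
  have h6 := (ga_pos (Q := Q) h0 h1 y).le
  calc ga Q η (y + s) ≤ ga Q η y * (L / η + 1) := by linarith
    _ ≤ _ := mul_le_mul_of_nonneg_left h5 h6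

theorem v_exp (hp : 0 ≤ p) (hp2 : p ≤ 1 / 2) (h0 : 0 < η) (h1 : η ≤ 1) (y s : ℝ) :
    v Q p (y + s) ≤ v Q p y * Real.exp (2 * Real.pi * Q * |s| / η) := by
  set L : ℝ := 2 * Real.pi * Q * |s| with hL
  have hL0 : 0 ≤ L := by
    rw [hL]
    have := Real.pi_pos
    positivity
  have h2 := abs_le.1 (w_lip Q y s)
  have hv := v_ge (Q := Q) hp y
  have h3 : v Q p (y + s) ≤ v Q p y + p * L := by
    unfold v
    have h4 : p * w Q (y + s) ≤ p * (w Q y + L) :=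
      mul_le_mul_of_nonneg_left (by linarith [h2.2]) hp
    linarith
  have h4 : p * L ≤ v Q p y * L := mul_le_mul_of_nonneg_right (by linarith) hL0
  have h5 := Real.add_one_le_exp (L / η)
  have h6 : L ≤ L / η := by
    rw [le_div_iff₀ h0]
    exact mul_le_of_le_one_right hL0 h1
  have h7 : 0 ≤ v Q p y := by linarith
  calc v Q p (y + s) ≤ v Q p y * (L / η + 1) := by
        have := mul_le_mul_of_nonneg_left h6 h7
        linarith
    _ ≤ _ := mul_le_mul_of_nonneg_left h5 h7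

theorem ga_exp4 (h0 : 0 < η) (h1 : η ≤ 1) (y s : ℝ) :
    ga Q η (y + s) ≤ ga Q η y * Real.exp (4 * Real.pi * Q * |s| / η) := by
  refine (ga_exp h0 h1 y s).trans (mul_le_mul_of_nonneg_left ?_ (ga_pos h0 h1 y).le)
  refine Real.exp_le_exp.2 (div_le_div_of_nonneg_right ?_ h0.le)
  have h2 : 0 ≤ Real.pi * Q * |s| := by
    have := Real.pi_pos
    positivity
  linarith

theorem vga_exp4 (hp : 0 ≤ p) (hp2 : p ≤ 1 / 2) (h0 : 0 < η) (h1 : η ≤ 1) (y s : ℝ) :
    v Q p (y + s) * ga Q η (y + s) ≤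
      v Q p y * ga Q η y * Real.exp (4 * Real.pi * Q * |s| / η) := by
  have h2 := v_exp (Q := Q) hp hp2 h0 h1 y s
  have h3 := ga_exp (Q := Q) h0 h1 y s
  have h4 : 0 ≤ v Q p y := by linarith [v_ge (Q := Q) hp y]
  have h5 := (ga_pos (Q := Q) h0 h1 (y + s)).le
  have e1 : Real.exp (4 * Real.pi * Q * |s| / η) =
      Real.exp (2 * Real.pi * Q * |s| / η) * Real.exp (2 * Real.pi * Q * |s| / η) := by
    rw [← Real.exp_add]
    congr 1
    ring
  rw [e1]
  calc v Q p (y + s) * ga Q η (y + s) ≤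
        (v Q p y * Real.exp (2 * Real.pi * Q * |s| / η)) *
          (ga Q η y * Real.exp (2 * Real.pi * Q * |s| / η)) :=
        mul_le_mul h2 h3 h5 (by positivity)
    _ = _ := by ring

end Weights

theorem mem_Kz {H : ℕ} {k : ℤ} : k ∈ Kz H ↔ k ≠ 0 ∧ -(H : ℤ) ≤ k ∧ k ≤ H := by
  unfold Kz
  rw [mem_erase, mem_Icc]

theorem card_Kz (H : ℕ) : #(Kz H) = 2 * H := by
  unfold Kz
  rw [card_erase_of_mem (by rw [mem_Icc]; constructor <;> simp), Int.card_Icc]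
  omega

/-- the shifts `k / Q`, `0 < |k| ≤ H`, are different modulo one -/
theorem sum_Kz_le {Q H : ℕ} (hH : 2 * H < Q) (y : ℝ) :
    ∑ k ∈ Kz H, w Q (y + (k : ℝ) / Q) ≤ 1 - w Q y := by
  have hQ : 0 < Q := by omega
  have hQ0 : (Q : ℝ) ≠ 0 := by exact_mod_cast hQ.ne'
  have hQz : (Q : ℤ) ≠ 0 := by exact_mod_cast hQ.ne'
  have h1 : ∀ k : ℤ, w Q (y + (k : ℝ) / Q) = w Q (y + ((k % Q).toNat : ℝ) / Q) := by
    intro k
    have h2 : (((k % Q).toNat : ℕ) : ℤ) = k % Q := Int.toNat_of_nonneg (Int.emod_nonneg k hQz)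
    have h3 : (k : ℝ) = ((k % Q).toNat : ℝ) + Q * ((k / Q : ℤ) : ℝ) := by
      have h4 : (k : ℤ) = (((k % Q).toNat : ℕ) : ℤ) + Q * (k / Q) := by
        rw [h2]
        exact (Int.emod_add_mul_ediv k Q).symm
      exact_mod_cast congrArg (fun z : ℤ => (z : ℝ)) h4
    have h5 : y + (k : ℝ) / Q = (y + ((k % Q).toNat : ℝ) / Q) + ((k / Q : ℤ) : ℝ) := by
      conv_lhs => rw [h3]
      field_simp
      ring
    rw [h5, w_add_int]
  have h2 : ∑ k ∈ Kz H, w Q (y + (k : ℝ) / Q) =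
      ∑ j ∈ (Kz H).image (fun k : ℤ => (k % Q).toNat), w Q (y + (j : ℝ) / Q) := by
    rw [sum_image]
    · exact sum_congr rfl fun k _ => h1 k
    · intro k hk k' hk' h
      rw [mem_coe, mem_Kz] at hk hk'
      have h3 : k % Q = k' % Q := by
        have h4 := congrArg (fun n : ℕ => (n : ℤ)) h
        simp only at h4
        rwa [Int.toNat_of_nonneg (Int.emod_nonneg k hQz),
          Int.toNat_of_nonneg (Int.emod_nonneg k' hQz)] at h4
      have h4 : (Q : ℤ) ∣ k - k' :=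
        Int.dvd_of_emod_eq_zero (Int.emod_eq_emod_iff_emod_sub_eq_zero.1 h3)
      have h5 : |k - k'| < Q := by
        rw [abs_lt]
        constructor <;> omega
      have := Int.eq_zero_of_abs_lt_dvd h4 h5
      omega
  have h3 : (Kz H).image (fun k : ℤ => (k % Q).toNat) ⊆ (range Q).erase 0 := by
    intro j hj
    rw [mem_image] at hj
    obtain ⟨k, hk, rfl⟩ := hj
    rw [mem_Kz] at hk
    have h4 := Int.emod_nonneg k hQz
    have h5 := Int.emod_lt_of_pos k (by exact_mod_cast hQ : (0 : ℤ) < Q)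
    rw [mem_erase, mem_range]
    refine ⟨fun h => ?_, by omega⟩
    have h6 : k % Q = 0 := by omega
    have h7 : (Q : ℤ) ∣ k := Int.dvd_of_emod_eq_zero h6
    have h8 : |k| < Q := by
      rw [abs_lt]
      constructor <;> omega
    exact hk.1 (Int.eq_zero_of_abs_lt_dvd h7 h8)
  rw [h2]
  refine (sum_le_sum_of_subset_of_nonneg h3 fun _ _ _ => w_nonneg _ _).trans ?_
  have h4 := w_sum Q hQ y
  rw [← add_sum_erase _ _ (mem_range.2 hQ)] at h4
  have h5 : y + ((0 : ℕ) : ℝ) / Q = y := by simp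
  rw [h5] at h4
  linarith

theorem sum_ga_le {Q H : ℕ} {η : ℝ} (h0 : 0 < η) (_ : η ≤ 1) (hH : 2 * H < Q) (y : ℝ) :
    ∑ k ∈ Kz H, ga Q η (y + (k : ℝ) / Q) ≤ 2 * H * η + (1 - w Q y) := by
  unfold ga
  rw [sum_add_distrib, sum_const, card_Kz, nsmul_eq_mul, ← mul_sum]
  have h2 := sum_Kz_le hH y
  have h3 : 0 ≤ ∑ k ∈ Kz H, w Q (y + (k : ℝ) / Q) := sum_nonneg fun _ _ => w_nonneg _ _
  have h4 : (1 - η) * ∑ k ∈ Kz H, w Q (y + (k : ℝ) / Q) ≤ ∑ k ∈ Kz H, w Q (y + (k : ℝ) / Q) :=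
    mul_le_of_le_one_left h3 (by linarith)
  push_cast
  linarith

/-- **the pointwise inequality** -/
theorem pointwise {Q H : ℕ} {p Δ η : ℝ} (hH1 : 1 ≤ H) (hH : 2 * H < Q) (hΔ : 0 < Δ) (hp : 0 < p)
    (hη : η = 8 * Δ / p) (hη1 : η ≤ 1) (y : ℝ) :
    v Q p y * ga Q η y + 2 * (Δ / (2 * H)) * ∑ k ∈ Kz H, ga Q η (y + (k : ℝ) / Q) ≤
      (1 + 4 * Δ * η) * ga Q η y := by
  have h0 : 0 < η := by
    rw [hη]
    positivity
  have hH0 : (1 : ℝ) ≤ H := by exact_mod_cast hH1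
  have hw0 := w_nonneg Q y
  have hw1 := w_le_one Q y
  have hpη : p * η = 8 * Δ := by
    rw [hη]
    field_simp
  have h1 : 2 * (Δ / (2 * H)) * ∑ k ∈ Kz H, ga Q η (y + (k : ℝ) / Q) ≤
      2 * Δ * η + Δ * (1 - w Q y) := by
    have h2 : 2 * (Δ / (2 * H)) * ∑ k ∈ Kz H, ga Q η (y + (k : ℝ) / Q) ≤
        2 * (Δ / (2 * H)) * (2 * H * η + (1 - w Q y)) :=
      mul_le_mul_of_nonneg_left (sum_ga_le h0 hη1 hH y) (by positivity)
    refine h2.trans ?_
    have h3 : 2 * (Δ / (2 * H)) * (2 * H * η + (1 - w Q y)) =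
        2 * Δ * η + (Δ / H) * (1 - w Q y) := by
      field_simp
    rw [h3]
    have h4 : Δ / H ≤ Δ := div_le_self hΔ.le hH0
    have h5 := mul_le_mul_of_nonneg_right h4 (sub_nonneg.2 hw1)
    linarith
  have h2 : 2 * Δ * η + Δ * (1 - w Q y) ≤ (4 * Δ * η + p * (1 - w Q y)) * ga Q η y := by
    have hga : ga Q η y = w Q y + η * (1 - w Q y) := by
      unfold ga
      ring
    have hp8 : 8 * Δ ≤ p := by
      rw [← hpη]
      exact mul_le_of_le_one_right hp.le hη1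
    have hη0 : 0 ≤ η * (1 - w Q y) := mul_nonneg h0.le (sub_nonneg.2 hw1)
    rcases le_or_gt (1 / 2) (w Q y) with h3 | h3
    · have h4 : 1 / 2 ≤ ga Q η y := by
        rw [hga]
        linarith
      have h5 : 0 ≤ 4 * Δ * η + p * (1 - w Q y) := by
        have := mul_nonneg hp.le (sub_nonneg.2 hw1)
        positivity
      have h6 := mul_le_mul_of_nonneg_left h4 h5
      have h7 : 8 * Δ * (1 - w Q y) ≤ p * (1 - w Q y) :=
        mul_le_mul_of_nonneg_right hp8 (sub_nonneg.2 hw1)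
      have h8 : 0 ≤ Δ * (1 - w Q y) := mul_nonneg hΔ.le (sub_nonneg.2 hw1)
      linarith
    · have h4 := ga_ge (Q := Q) h0 hη1 y
      have h5 : 0 ≤ p * (1 - w Q y) := mul_nonneg hp.le (sub_nonneg.2 hw1)
      have h6 : p * (1 - w Q y) * η ≤ p * (1 - w Q y) * ga Q η y :=
        mul_le_mul_of_nonneg_left h4 h5
      have h7 : p * (1 - w Q y) * η = 8 * Δ * (1 - w Q y) := by
        rw [← hpη]
        ring
      have h8 : 0 ≤ 4 * Δ * η * ga Q η y := by
        have := (ga_pos (Q := Q) h0 hη1 y).le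
        positivity
      have h9 : 2 * Δ * η ≤ 2 * Δ := mul_le_of_le_one_right (by positivity) hη1
      have h10 : Δ * (1 / 2) ≤ Δ * (1 - w Q y) := mul_le_mul_of_nonneg_left (by linarith) hΔ.le
      linarith
  have h3 : v Q p y * ga Q η y = ga Q η y - p * (1 - w Q y) * ga Q η y := by
    unfold v
    ring
  rw [h3]
  linarith

theorem pointwise_v {Q H : ℕ} {p Δ η : ℝ} (hH1 : 1 ≤ H) (hH : 2 * H < Q) (hΔ : 0 < Δ)
    (hp : 0 < p) (hη : η = 8 * Δ / p) (hη1 : η ≤ 1) (y : ℝ) :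
    v Q p y * ga Q η y +
        2 * (Δ / (2 * H)) * ∑ k ∈ Kz H, v Q p (y + (k : ℝ) / Q) * ga Q η (y + (k : ℝ) / Q) ≤
      (1 + 4 * Δ * η) * ga Q η y := by
  have h0 : 0 < η := by
    rw [hη]
    positivity
  refine le_trans ?_ (pointwise hH1 hH hΔ hp hη hη1 y)
  have h1 : ∑ k ∈ Kz H, v Q p (y + (k : ℝ) / Q) * ga Q η (y + (k : ℝ) / Q) ≤
      ∑ k ∈ Kz H, ga Q η (y + (k : ℝ) / Q) :=
    sum_le_sum fun k _ => mul_le_of_le_one_left (ga_pos h0 hη1 _).le (v_le_one hp.le _)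
  have h2 := mul_le_mul_of_nonneg_left h1 (by positivity : 0 ≤ 2 * (Δ / (2 * (H : ℝ))))
  linarith

end Pool.Agent.Helper37.SC
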