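import Pool.Agent.Helper57.UC.Defs

set_option autoImplicit false

/-!
# Functions of few digits have a small sensitivity
-/

namespace Pool.Agent.Helper37.SC

open Finset
open Pool.Agent.Helper57.UC

theorem digit_ne {b q j K n : ℕ} (hb : 2 ≤ b)
    (h : digit b q n ≠ digit b q ((n + b ^ j) % b ^ K)) (hn : n < b ^ K) :
    q < K ∧ j ≤ q ∧ b ^ q - b ^ j ≤ n % b ^ q := by
  have hb0 : 0 < b := by omega
  have hqK : q < K := by
    by_contra hcon
    rw [not_lt] at hcon
    apply h
    have h1 : b ^ K ≤ b ^ q := Nat.pow_le_pow_right hb0 hcon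
    have h2 : (n + b ^ j) % b ^ K < b ^ K := Nat.mod_lt _ (by positivity)
    unfold digit
    rw [Nat.div_eq_of_lt (by omega), Nat.div_eq_of_lt (by omega)]
  have e1 : digit b q ((n + b ^ j) % b ^ K) = digit b q (n + b ^ j) := by
    unfold digit
    have h1 : b ^ K = b ^ (q + 1) * b ^ (K - (q + 1)) := by
      rw [← pow_add]
      congr 1
      omega
    have h2 : ∀ m : ℕ, m / b ^ q % b = m % b ^ (q + 1) / b ^ q := by
      intro m
      rw [pow_succ, Nat.mod_mul_right_div_self]
    rw [h2, h2, h1, Nat.mod_mul_right_mod]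
  rw [e1] at h
  refine ⟨hqK, ?_, ?_⟩
  · by_contra hcon
    rw [not_le] at hcon
    apply h
    unfold digit
    have h1 : b ^ j = b ^ q * (b * b ^ (j - (q + 1))) := by
      rw [← mul_assoc, ← pow_succ, ← pow_add]
      congr 1
      omega
    rw [h1, Nat.add_mul_div_left _ _ (by positivity), Nat.add_mul_mod_self_left]
  · by_contra hcon
    rw [not_le] at hcon
    apply h
    unfold digit
    have h1 : (n + b ^ j) / b ^ q = n / b ^ q := by
      have h2 := Nat.div_add_mod n (b ^ q)
      have h3 : n + b ^ j = (n % b ^ q + b ^ j) + b ^ q * (n / b ^ q) := by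
        rw [← h2]
        simp only [Nat.mul_add_mod_self_left, Nat.mod_mod]
        rw [Nat.mul_add_div (by positivity)]
        simp only [Nat.mod_div_self, add_zero]
        ring
      have h4 : n % b ^ q + b ^ j < b ^ q := by
        generalize n % b ^ q = r at hcon
        omega
      rw [h3, Nat.add_mul_div_left _ _ (by positivity), Nat.div_eq_of_lt h4, zero_add]
    rw [h1]

theorem sens_digit (b K q : ℕ) (hb : 2 ≤ b) :
    ∑ j ∈ range K, #{n ∈ range (b ^ K) | digit b q n ≠ digit b q ((n + b ^ j) % b ^ K)} ≤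
      2 * b ^ K := by
  have hb0 : 0 < b := by omega
  rcases lt_or_ge q K with hqK | hqK
  · have h1 : ∀ j ∈ range K,
        #{n ∈ range (b ^ K) | digit b q n ≠ digit b q ((n + b ^ j) % b ^ K)} ≤
          if j ∈ range (q + 1) then b ^ (K - q) * b ^ j else 0 := by
      intro j _
      split_ifs with hj
      · rw [mem_range] at hj
        have h2 : b ^ (K - q) * b ^ j = #(range (b ^ (K - q)) ×ˢ Ico (b ^ q - b ^ j) (b ^ q)) := by
          rw [card_product, card_range, Nat.card_Ico]
          congr 1
          have : b ^ j ≤ b ^ q := Nat.pow_le_pow_right hb0 (by omega)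
          omega
        rw [h2]
        refine Finset.card_le_card_of_injOn (fun n => (n / b ^ q, n % b ^ q)) ?_ ?_
        · intro n hn
          rw [Finset.mem_coe, mem_filter, mem_range] at hn
          obtain ⟨-, -, h4⟩ := digit_ne hb hn.2 hn.1
          rw [Finset.mem_coe, mem_product, mem_range, mem_Ico]
          refine ⟨?_, h4, Nat.mod_lt _ (by positivity)⟩
          show n / b ^ q < _
          rw [Nat.div_lt_iff_lt_mul (by positivity), ← pow_add]
          have : K - q + q = K := by omega
          rw [this]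
          exact hn.1
        · intro n _ n' _ h
          simp only [Prod.mk.injEq] at h
          rw [← Nat.div_add_mod n (b ^ q), ← Nat.div_add_mod n' (b ^ q), h.1, h.2]
      · rw [mem_range] at hj
        rw [Nat.le_zero, card_eq_zero, filter_eq_empty_iff]
        intro n hn h
        rw [mem_range] at hn
        have := (digit_ne hb h hn).2.1
        omega
    refine (Finset.sum_le_sum h1).trans ?_
    rw [← Finset.sum_filter]
    have h3 : (range K).filter (fun j => j ∈ range (q + 1)) = range (q + 1) := by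
      ext j
      rw [mem_filter, mem_range, mem_range]
      omega
    rw [h3, ← Finset.mul_sum]
    have h4 : ∀ m : ℕ, ∑ j ∈ range (m + 1), b ^ j ≤ 2 * b ^ m := by
      intro m
      induction m with
      | zero => simp
      | succ m ih =>
        rw [Finset.sum_range_succ]
        have h5 : 2 * b ^ m ≤ b ^ (m + 1) := by
          rw [pow_succ, mul_comm]
          exact Nat.mul_le_mul_left _ hb
        omega
    calc b ^ (K - q) * ∑ j ∈ range (q + 1), b ^ j ≤ b ^ (K - q) * (2 * b ^ q) :=
          Nat.mul_le_mul_left _ (h4 q)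
      _ = 2 * (b ^ (K - q) * b ^ q) := by ring
      _ = 2 * b ^ K := by
        rw [← pow_add]
        congr 2
        omega
  · have h1 : ∀ j ∈ range K,
        #{n ∈ range (b ^ K) | digit b q n ≠ digit b q ((n + b ^ j) % b ^ K)} = 0 := by
      intro j _
      rw [card_eq_zero, filter_eq_empty_iff]
      intro n hn h
      rw [mem_range] at hn
      have := (digit_ne hb h hn).1
      omega
    rw [Finset.sum_congr rfl h1]
    simp

/-- a function of at most `w` digits changes for few shifts -/
theorem sens_few (b K w : ℕ) (hb : 2 ≤ b) (g : ℕ → ℕ) (hg : FewDigits b w g) :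
    ∑ j ∈ range K, #{n ∈ range (b ^ K) | g n ≠ g ((n + b ^ j) % b ^ K)} ≤ 2 * w * b ^ K := by
  obtain ⟨Q, hQ, hg⟩ := hg
  have h1 : ∀ j ∈ range K, #{n ∈ range (b ^ K) | g n ≠ g ((n + b ^ j) % b ^ K)} ≤
      ∑ q ∈ Q, #{n ∈ range (b ^ K) | digit b q n ≠ digit b q ((n + b ^ j) % b ^ K)} := by
    intro j _
    refine (card_le_card ?_).trans card_biUnion_le
    intro n hn
    rw [mem_filter] at hn
    rw [mem_biUnion]
    by_contra hcon
    apply hn.2
    apply hg
    intro q hq
    by_contra h
    exact hcon ⟨q, hq, mem_filter.2 ⟨hn.1, h⟩⟩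
  refine (Finset.sum_le_sum h1).trans ?_
  rw [Finset.sum_comm]
  refine (Finset.sum_le_sum fun q _ => sens_digit b K q hb).trans ?_
  rw [Finset.sum_const, smul_eq_mul]
  calc #Q * (2 * b ^ K) ≤ w * (2 * b ^ K) := Nat.mul_le_mul_right _ hQ
    _ = 2 * w * b ^ K := by ring

/-- the total sensitivity of functions of few digits -/
theorem sens_sum (b K w : ℕ) (hb : 2 ≤ b) (J : ℕ → ℕ → ℕ) (hJ : ∀ i < K, FewDigits b w (J i)) :
    ∑ i ∈ range K, ∑ j ∈ range K,
        (#{n ∈ range (b ^ K) | J i n ≠ J i ((n + b ^ j) % b ^ K)} : ℝ) ≤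
      ((2 * w + 1 : ℕ) : ℝ) * K * (b : ℝ) ^ K := by
  have h1 : ∑ i ∈ range K, ∑ j ∈ range K,
        #{n ∈ range (b ^ K) | J i n ≠ J i ((n + b ^ j) % b ^ K)} ≤ (2 * w + 1) * K * b ^ K := by
    refine (Finset.sum_le_sum fun i hi => sens_few b K w hb (J i) (hJ i (mem_range.1 hi))).trans ?_
    rw [Finset.sum_const, card_range, smul_eq_mul]
    calc K * (2 * w * b ^ K) = (2 * w) * (K * b ^ K) := by ring
      _ ≤ (2 * w + 1) * (K * b ^ K) := Nat.mul_le_mul_right _ (by omega)
      _ = _ := by ring
  exact_mod_cast h1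

end Pool.Agent.Helper37.SC
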